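import Mathlib
import Pool.Agent.H33.G.R_pool_sql_team_seeded_efc1946e.K1H87.PR.Unif
import Pool.Agent.H33.G.R_seed8.Results.MP_ff4775_nt.CoalescingPrimes

set_option autoImplicit false

/-! # Primes in the basins of the cycles of the `3x+1` map on the integers

For every cycle of `T` on the integers, other than `{0}`, the basin of the cycle contains, for a positive
proportion of the primes `p`, the number `p` (if the cycle is positive) or `-p` (if it is negative)
together with all its affine neighbours; the same holds for the shifted primes `p + b`, uniformly in `b`,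
and (without the neighbours) for `a p + b` and `N - a p`. So the question whether there is a further cycle
is a question about primes: the list of the five cycles is complete if and only if almost all primes and
almost all negatives of primes have at least one affine neighbour whose orbit does not enter a cycle which
is not in the list. -/

namespace Pool.Agent.Results.MP_edb5be_nt.PrimesInBasins

open Filter Topology

/-- The `3x+1` map on the integers. -/
def T (x : ℤ) : ℤ := if x % 2 = 0 then x / 2 else (3 * x + 1) / 2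

/-- `z` is an element of a cycle. -/
def Periodic (z : ℤ) : Prop := ∃ p : ℕ, 1 ≤ p ∧ T^[p] z = z

/-- The elements of the five cycles of the list. -/
def listed : Finset ℤ :=
  {1, 2, 0, -1, -5, -7, -10, -17, -25, -37, -55, -82, -41, -61, -91, -136, -68, -34}

/-- The integers whose orbit contains `z`. -/
def Basin (z : ℤ) : Set ℤ := {n | ∃ k : ℕ, T^[k] n = z}

/-- The number of the primes `p` with `N / 4 ≤ a p + b ≤ N` and `s (a p + b) ∈ S`. -/
noncomputable def Shifted (S : Set ℤ) (s : ℤ) (a : ℕ) (b : ℤ) (N : ℕ) : ℕ :=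
  {p : ℕ | p.Prime ∧ (N : ℤ) ≤ 4 * (a * p + b) ∧ (a * p + b : ℤ) ≤ N ∧ s * (a * p + b) ∈ S}.ncard

/-- The number of the primes `p` with `a p < N` and `s (N - a p) ∈ S`. -/
noncomputable def Reflected (S : Set ℤ) (s : ℤ) (a N : ℕ) : ℕ :=
  {p : ℕ | p.Prime ∧ a * p < N ∧ s * (N - a * p) ∈ S}.ncard

/-- The scale `√ (log n) / (log log n) ^ 17`. -/
noncomputable def κ (n : ℕ) : ℝ := √ (Real.log n) / (Real.log (Real.log n)) ^ 17

/-- The affine neighbours of `s n`: the integers `m` with `|2^e 3^f m - 2^e' 3^f' s n| ≤ exp (κ n)` for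
some `e, f, e', f' ≤ κ n`. -/
def Neighbours (s : ℤ) (n : ℕ) : Set ℤ :=
  {m | ∃ e e' f f' : ℕ, (e : ℝ) ≤ κ n ∧ (e' : ℝ) ≤ κ n ∧ (f : ℝ) ≤ κ n ∧ (f' : ℝ) ≤ κ n ∧
    |((2 ^ e * 3 ^ f * m - 2 ^ e' * 3 ^ f' * (s * n) : ℤ) : ℝ)| ≤ Real.exp (κ n)}

/-- The number of the primes `p` with `N / 4 ≤ p + b ≤ N` such that all affine neighbours of `s (p + b)`
belong to `S`. -/
noncomputable def ShiftedNear (S : Set ℤ) (s b : ℤ) (N : ℕ) : ℕ :=
  {p : ℕ | p.Prime ∧ (N : ℤ) ≤ 4 * (p + b) ∧ (p + b : ℤ) ≤ N ∧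
    Neighbours s ((p : ℤ) + b).toNat ⊆ S}.ncard

/-- The number of the primes `p ≤ N` such that the orbits of all affine neighbours of `s p` enter cycles
which are not among the five listed cycles. -/
noncomputable def NewPrimes (s : ℤ) (N : ℕ) : ℕ :=
  {p : ℕ | p.Prime ∧ p ≤ N ∧ ∀ m ∈ Neighbours s p, ∃ z : ℤ, Periodic z ∧ z ∉ listed ∧ m ∈ Basin z}.ncard

/-! ### proofs -/

open Pool.Agent.H499R2.ND

theorem T_eq : T = Pool.Agent.H499R2.CO.Tz 1 := rfl

theorem basin_inv {z : ℤ} (hz : Periodic z) (x : ℤ) : x ∈ Basin z ↔ T x ∈ Basin z := by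
  constructor
  · rintro ⟨k, hk⟩
    cases k with
    | zero =>
      have hx : x = z := hk
      obtain ⟨p, hp, hp2⟩ := hz
      obtain ⟨q, rfl⟩ : ∃ q, p = q + 1 := ⟨p - 1, by omega⟩
      refine ⟨q, ?_⟩
      rw [hx, ← Function.iterate_succ_apply]
      exact hp2
    | succ k => exact ⟨k, by rw [← Function.iterate_succ_apply]; exact hk⟩
  · rintro ⟨k, hk⟩
    exact ⟨k + 1, by rw [Function.iterate_succ_apply]; exact hk⟩

theorem basin_Inv {z : ℤ} (hz : Periodic z) : Inv 1 (Basin z) := fun x => basin_inv hz x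

theorem listed_periodic : ∀ z ∈ listed, Periodic z := by
  have h : ∀ z ∈ listed, T^[66] z = z := by decide +kernel
  exact fun z hz => ⟨66, by norm_num, h z hz⟩

/-- the first part -/
theorem main {z : ℤ} (hz : Periodic z) {s : ℤ} (hs : s = 1 ∨ s = -1) (hsz : 0 < s * z) {a : ℕ}
    (ha : 1 ≤ a) : ∃ c : ℝ, 0 < c ∧ ∃ N₀ : ℕ, ∀ N : ℕ, N₀ ≤ N →
      (∀ b : ℤ, 8 * |b| ≤ N → c * (N / Real.log N) ≤ Shifted (Basin z) s a b N) ∧
        c * (N / Real.log N) ≤ Reflected (Basin z) s a N := by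
  have haZ : (1 : ℤ) ≤ a := by exact_mod_cast ha
  obtain ⟨δ, _, _, hδ⟩ := dens_side odd_one isCoprime_one_left hs (basin_Inv hz)
  have hδ0 : 0 < δ := one_pos hs (basin_Inv hz) (a := z) ⟨0, rfl⟩ hsz hδ
  obtain ⟨c₁, hc₁, h₁⟩ := Pool.Agent.K1H87.PR.primes_lin hs haZ hδ0
  obtain ⟨c₂, hc₂, h₂⟩ := Pool.Agent.K1H87.PR.primes_diff hs haZ hδ0
  obtain ⟨N₀, hN₀⟩ := eventually_atTop.1 ((h₁.and h₂).and (eventually_ge_atTop 2))
  refine ⟨min c₁ c₂, lt_min hc₁ hc₂, N₀, fun N hN => ?_⟩
  obtain ⟨⟨g₁, g₂⟩, g₃⟩ := hN₀ N hN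
  have hN1 : (1 : ℝ) < N := by exact_mod_cast g₃
  have hlog : 0 < Real.log N := Real.log_pos hN1
  have hq : 0 ≤ N / Real.log N := by positivity
  constructor
  · intro b hb
    exact (mul_le_mul_of_nonneg_right (min_le_left _ _) hq).trans
      (g₁ _ (basin_Inv hz) δ hδ le_rfl b hb)
  · refine (mul_le_mul_of_nonneg_right (min_le_right _ _) hq).trans
      ((g₂ _ (basin_Inv hz) δ hδ le_rfl).trans (le_of_eq ?_))
    unfold Reflected
    congr 2
    ext p
    simp only [Set.mem_ofPred_eq]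
    constructor
    · rintro ⟨h1, h2, h3⟩
      refine ⟨h1, ?_, h3⟩
      have : ((a * p : ℕ) : ℤ) < N := by push_cast; omega
      exact_mod_cast this
    · rintro ⟨h1, h2, h3⟩
      have : ((a * p : ℕ) : ℤ) < N := by exact_mod_cast h2
      push_cast at this
      exact ⟨h1, by omega, h3⟩

theorem basin_iter {z : ℤ} (hz : Periodic z) (x : ℤ) (k : ℕ) : x ∈ Basin z ↔ T^[k] x ∈ Basin z := by
  induction k generalizing x with
  | zero => rfl
  | succ k ih => rw [basin_inv hz x, ih (T x), ← Function.iterate_succ_apply]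

theorem T_eq' : T = Pool.Agent.Results.MP_ff4775_nt.CoalescingPrimes.T := rfl

/-- the neighbours of a coalescing integer of the basin -/
theorem near_of {z s : ℤ} (hz : Periodic z) {n : ℕ}
    (h : Pool.Agent.Results.MP_ff4775_nt.CoalescingPrimes.Coalesces s n) (hn : s * n ∈ Basin z) :
    Neighbours s n ⊆ Basin z := by
  rintro m ⟨e, e', f, f', h1, h2, h3, h4, h5⟩
  obtain ⟨t, _, ht⟩ := h
  have h6 := ht e e' f f' h1 h2 h3 h4 m h5
  rw [← T_eq'] at h6
  rw [basin_iter hz m (t + e'), h6, ← basin_iter hz (s * n) (t + e)]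
  exact hn

/-- the second part, with neighbours -/
theorem near {z : ℤ} (hz : Periodic z) {s : ℤ} (hs : s = 1 ∨ s = -1) (hsz : 0 < s * z) :
    ∃ c : ℝ, 0 < c ∧ ∃ N₀ : ℕ, ∀ N : ℕ, N₀ ≤ N → ∀ b : ℤ, 8 * |b| ≤ N →
      c * (N / Real.log N) ≤ ShiftedNear (Basin z) s b N := by
  obtain ⟨c, hc, N₀, h⟩ := main hz hs hsz le_rfl
  obtain ⟨N₁, h1⟩ := (Pool.Agent.Results.MP_ff4775_nt.CoalescingPrimes.result s hs).1 (c / 2)
    (by positivity)
  refine ⟨c / 2, by positivity, max N₀ N₁, fun N hN b hb => ?_⟩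
  have h2 := (h N (le_trans (le_max_left _ _) hN)).1 b hb
  have hbN : |(-b)| ≤ (N : ℤ) := by
    rw [abs_neg]
    have : 0 ≤ |b| := abs_nonneg b
    omega
  have h3 := h1 N (le_trans (le_max_right _ _) hN) (-b) hbN
  unfold Shifted at h2
  unfold Pool.Agent.Results.MP_ff4775_nt.CoalescingPrimes.Shifted at h3
  unfold ShiftedNear
  set A : Set ℕ := {p : ℕ | p.Prime ∧ (N : ℤ) ≤ 4 * (((1 : ℕ) : ℤ) * p + b) ∧
    (((1 : ℕ) : ℤ) * p + b : ℤ) ≤ N ∧ s * (((1 : ℕ) : ℤ) * p + b) ∈ Basin z} with hA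
  set B : Set ℕ := {p : ℕ | p.Prime ∧ -b < p ∧ (p : ℤ) ≤ -b + N ∧
    ¬ Pool.Agent.Results.MP_ff4775_nt.CoalescingPrimes.Coalesces s ((p : ℤ) - -b).toNat} with hB
  set C : Set ℕ := {p : ℕ | p.Prime ∧ (N : ℤ) ≤ 4 * (p + b) ∧ (p + b : ℤ) ≤ N ∧
    Neighbours s ((p : ℤ) + b).toNat ⊆ Basin z} with hC
  have hbound : ∀ p : ℕ, ((p : ℤ) + b) ≤ N → p ≤ 2 * N := by
    intro p hp
    have h5 : -b ≤ |b| := neg_le_abs b
    have h6 : 0 ≤ |b| := abs_nonneg b
    omega
  have hBf : B.Finite := (Set.finite_Iic (2 * N)).subset (fun p hp => hbound p (by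
    have := hp.2.2.1; omega))
  have hCf : C.Finite := (Set.finite_Iic (2 * N)).subset (fun p hp => hbound p hp.2.2.1)
  have hsub : A ⊆ B ∪ C := by
    intro p hp
    by_cases hp2 : p ∈ B
    · exact Or.inl hp2
    right
    obtain ⟨g1, g2, g3, g4⟩ := hp
    have e : (((1 : ℕ) : ℤ) * p + b) = (p : ℤ) + b := by push_cast; ring
    rw [e] at g2 g3 g4
    refine ⟨g1, g2, g3, ?_⟩
    rcases lt_or_ge (-b) (p : ℤ) with h7 | h7
    · have h8 : Pool.Agent.Results.MP_ff4775_nt.CoalescingPrimes.Coalesces s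
          ((p : ℤ) - -b).toNat := by
        by_contra h9
        exact hp2 ⟨g1, h7, by omega, h9⟩
      rw [sub_neg_eq_add] at h8
      refine near_of hz h8 ?_
      rw [Int.toNat_of_nonneg (by omega)]
      exact g4
    · have hN0 : (N : ℤ) = 0 := by omega
      have h10 : (p : ℤ) + b = 0 := by omega
      exfalso
      rw [h10, mul_zero] at g4
      obtain ⟨k, hk⟩ := g4
      have h11 : ∀ k : ℕ, T^[k] 0 = 0 := by
        intro k
        induction k with
        | zero => rfl
        | succ k ih => rw [Function.iterate_succ_apply]; exact ih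
      rw [h11] at hk
      rw [← hk, mul_zero] at hsz
      exact lt_irrefl _ hsz
  have hcard : A.ncard ≤ B.ncard + C.ncard :=
    (Set.ncard_le_ncard hsub (hBf.union hCf)).trans (Set.ncard_union_le _ _)
  have hcard' : (A.ncard : ℝ) ≤ B.ncard + C.ncard := by exact_mod_cast hcard
  have h4 : c / 2 * (N / Real.log N) = c * (N / Real.log N) - c / 2 * N / Real.log N := by ring
  rw [h4]
  linarith

theorem self_mem (s : ℤ) {n : ℕ} (hn : 3 ≤ n) : s * n ∈ Neighbours s n := by
  have h0 : 0 ≤ κ n := by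
    unfold κ
    have h1 : (1 : ℝ) ≤ Real.log n := by
      rw [Real.le_log_iff_exp_le (by positivity)]
      have h2 : (3 : ℝ) ≤ n := by exact_mod_cast hn
      exact (le_trans Real.exp_one_lt_three.le h2)
    have h3 : 0 ≤ Real.log (Real.log n) := Real.log_nonneg h1
    positivity
  refine ⟨0, 0, 0, 0, by simpa using h0, by simpa using h0, by simpa using h0, by simpa using h0, ?_⟩
  simp only [pow_zero, one_mul, sub_self, Int.cast_zero, abs_zero]
  exact (Real.exp_pos _).le

theorem one_le_eventually {ε : ℝ} (hε : 0 < ε) : ∀ᶠ N : ℕ in atTop, 1 ≤ ε * (N / Real.log N) := by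
  have h1 : Tendsto (fun N : ℕ => Real.log N / N) atTop (𝓝 0) := by
    have := Real.isLittleO_log_id_atTop.tendsto_div_nhds_zero.comp tendsto_natCast_atTop_atTop
    exact this
  filter_upwards [h1.eventually (gt_mem_nhds hε), eventually_ge_atTop 2] with N h2 hN
  have hN1 : (1 : ℝ) < N := by exact_mod_cast hN
  have hlog : 0 < Real.log N := Real.log_pos hN1
  have hN0 : (0 : ℝ) < N := by linarith
  rw [div_lt_iff₀ hN0] at h2
  rw [← mul_div_assoc, le_div_iff₀ hlog]
  linarith

/-- (1) The elements of the listed cycles are periodic. (2) Let `z ≠ 0` be an element of a cycle of `T`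
on the integers and `s` its sign. For every `a ≥ 1` there is `c > 0` such that for all large `N` and all
`b` with `8 |b| ≤ N` the orbits of `s (a p + b)` enter the cycle of `z` for at least `c N / log N` of the
primes `p` with `N / 4 ≤ a p + b ≤ N`, and the orbits of `s (N - a p)` for at least `c N / log N` of the
primes `p` with `a p < N`. (3) There is `c > 0` such that for all large `N` and all `b` with
`8 |b| ≤ N`, for at least `c N / log N` of the primes `p` with `N / 4 ≤ p + b ≤ N` the orbits of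
`s (p + b)` and of all its affine neighbours enter the cycle of `z`. (4) Every cycle of `T` on the
integers is one of the five listed cycles if and only if for both signs `s` and all `ε > 0` there are
arbitrarily large `N` such that, for all primes `p ≤ N` with at most `ε N / log N` exceptions, the orbit
of at least one affine neighbour of `s p` does not enter a cycle which is not listed. -/
theorem result :
    (∀ z ∈ listed, Periodic z) ∧
    (∀ z : ℤ, Periodic z → ∀ s : ℤ, (s = 1 ∨ s = -1) → 0 < s * z → ∀ a : ℕ, 1 ≤ a →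
      ∃ c : ℝ, 0 < c ∧ ∃ N₀ : ℕ, ∀ N : ℕ, N₀ ≤ N →
        (∀ b : ℤ, 8 * |b| ≤ N → c * (N / Real.log N) ≤ Shifted (Basin z) s a b N) ∧
        c * (N / Real.log N) ≤ Reflected (Basin z) s a N) ∧
    (∀ z : ℤ, Periodic z → ∀ s : ℤ, (s = 1 ∨ s = -1) → 0 < s * z →
      ∃ c : ℝ, 0 < c ∧ ∃ N₀ : ℕ, ∀ N : ℕ, N₀ ≤ N → ∀ b : ℤ, 8 * |b| ≤ N →
        c * (N / Real.log N) ≤ ShiftedNear (Basin z) s b N) ∧
    ((∀ z : ℤ, Periodic z → z ∈ listed) ↔
      ∀ s : ℤ, (s = 1 ∨ s = -1) → ∀ ε : ℝ, 0 < ε →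
        ∃ᶠ N : ℕ in atTop, (NewPrimes s N : ℝ) ≤ ε * (N / Real.log N)) := by
  refine ⟨listed_periodic, fun z hz s hs hsz a ha => main hz hs hsz ha,
    fun z hz s hs hsz => near hz hs hsz, ?_, ?_⟩
  · intro h s _ ε hε
    apply Eventually.frequently
    filter_upwards [one_le_eventually hε] with N hN
    have h0 : NewPrimes s N ≤ 1 := by
      unfold NewPrimes
      have : {p : ℕ | p.Prime ∧ p ≤ N ∧ ∀ m ∈ Neighbours s p, ∃ z : ℤ, Periodic z ∧ z ∉ listed ∧
          m ∈ Basin z} ⊆ {2} := by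
        rintro p ⟨hp, _, h1⟩
        rw [Set.mem_singleton_iff]
        by_contra h2
        have h3 : 3 ≤ p := by
          have := hp.two_le
          omega
        obtain ⟨z, hz, hzl, _⟩ := h1 _ (self_mem s h3)
        exact hzl (h z hz)
      exact (Set.ncard_le_ncard this (Set.finite_singleton 2)).trans (by simp)
    exact (by exact_mod_cast h0 : (NewPrimes s N : ℝ) ≤ 1).trans hN
  · intro h z hz
    by_contra hzl
    have hz0 : z ≠ 0 := by
      rintro rfl
      exact hzl (by decide)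
    obtain ⟨s, hs, hsz⟩ : ∃ s : ℤ, (s = 1 ∨ s = -1) ∧ 0 < s * z := by
      rcases lt_or_gt_of_ne hz0 with h1 | h1
      · exact ⟨-1, Or.inr rfl, by omega⟩
      · exact ⟨1, Or.inl rfl, by omega⟩
    obtain ⟨c, hc, N₀, hN₀⟩ := near hz hs hsz
    obtain ⟨N, hN1, hN2⟩ := ((h s hs (c / 2) (by positivity)).and_eventually
      (eventually_ge_atTop (N₀ + 2))).exists
    have h1 := hN₀ N (by omega) 0 (by simp)
    have hN3 : (1 : ℝ) < N := by
      have : 1 < N := by omega
      exact_mod_cast this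
    have hlog : 0 < Real.log N := Real.log_pos hN3
    have hq : 0 < (N : ℝ) / Real.log N := by positivity
    have h2 : (ShiftedNear (Basin z) s 0 N : ℝ) ≤ NewPrimes s N := by
      unfold ShiftedNear NewPrimes
      have hfin : {p : ℕ | p.Prime ∧ p ≤ N ∧ ∀ m ∈ Neighbours s p, ∃ z : ℤ, Periodic z ∧ z ∉ listed ∧
          m ∈ Basin z}.Finite := (Set.finite_Iic N).subset (fun p hp => hp.2.1)
      have hsub : {p : ℕ | p.Prime ∧ (N : ℤ) ≤ 4 * (p + 0) ∧ (p + 0 : ℤ) ≤ N ∧
          Neighbours s ((p : ℤ) + 0).toNat ⊆ Basin z} ⊆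
          {p : ℕ | p.Prime ∧ p ≤ N ∧ ∀ m ∈ Neighbours s p, ∃ z : ℤ, Periodic z ∧ z ∉ listed ∧
            m ∈ Basin z} := by
        rintro p ⟨h3, _, h5, h6⟩
        rw [add_zero] at h5 h6
        rw [Int.toNat_natCast] at h6
        exact ⟨h3, by exact_mod_cast h5, fun m hm => ⟨z, hz, hzl, h6 hm⟩⟩
      exact_mod_cast Set.ncard_le_ncard hsub hfin
    have h3 : c * ((N : ℝ) / Real.log N) ≤ c / 2 * (N / Real.log N) := h1.trans (h2.trans hN1)
    have h4 := le_of_mul_le_mul_right h3 hq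
    linarith

end Pool.Agent.Results.MP_edb5be_nt.PrimesInBasins
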